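import Pool.Agent.H31.UF.Targets

set_option autoImplicit false

open Finset Filter Topology

namespace Pool.Agent.H34.UF

open Pool.Agent.H91.LF Pool.Agent.H31.UF

theorem prod_sub_prod_le {ι : Type*} [DecidableEq ι] (S : Finset ι) (a b : ι → ℝ)
    (ha : ∀ i, |a i| ≤ 1) (hb : ∀ i, |b i| ≤ 1) :
    |∏ s ∈ S, a s - ∏ s ∈ S, b s| ≤ ∑ s ∈ S, |a s - b s| := by
  induction S using Finset.induction_on with
  | empty => simp
  | insert x S hx ih =>
    rw [Finset.prod_insert hx, Finset.prod_insert hx, Finset.sum_insert hx]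
    have e : a x * ∏ s ∈ S, a s - b x * ∏ s ∈ S, b s =
        (a x - b x) * ∏ s ∈ S, a s + b x * (∏ s ∈ S, a s - ∏ s ∈ S, b s) := by ring
    rw [e]
    refine (abs_add_le _ _).trans ?_
    have h1 : |(a x - b x) * ∏ s ∈ S, a s| ≤ |a x - b x| := by
      rw [abs_mul]
      exact mul_le_of_le_one_right (abs_nonneg _) (abs_prod_le S a fun i _ => ha i)
    have h2 : |b x * (∏ s ∈ S, a s - ∏ s ∈ S, b s)| ≤ ∑ s ∈ S, |a s - b s| := by
      rw [abs_mul]
      exact (mul_le_of_le_one_left (abs_nonneg _) (hb x)).trans ih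
    exact add_le_add h1 h2

open Classical in
theorem sum_vx_le (k N : ℕ) (s : Finset (Fin k)) (F : ℤ → ℝ) (hF : ∀ n, 0 ≤ F n) :
    ∑ z ∈ CB k N, F (vx z s) ≤ (2 * N + 1) ^ k * ∑ n ∈ Finset.Icc (1 : ℤ) N, F n := by
  set φ : (Fin (k + 1) → ℤ) → ℤ × (Fin k → ℤ) := fun z => (vx z s, fun i => z i.succ) with hφ
  have hinj : Set.InjOn φ (CB k N : Set (Fin (k + 1) → ℤ)) := by
    intro z _ z' _ h
    have h1 : vx z s = vx z' s := congrArg Prod.fst h
    have h2 : (fun i => z (Fin.succ i)) = fun i => z' (Fin.succ i) := congrArg Prod.snd h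
    have h3 : ∀ i : Fin k, z i.succ = z' i.succ := fun i => congrFun h2 i
    have h4 : z 0 = z' 0 := by
      unfold vx at h1
      rw [Finset.sum_congr rfl fun i _ => h3 i] at h1
      exact add_right_cancel h1
    funext i
    refine Fin.cases h4 (fun i => h3 i) i
  have h1 : ∑ z ∈ CB k N, F (vx z s) = ∑ y ∈ (CB k N).image φ, F y.1 := by
    rw [Finset.sum_image hinj]
  have h2 : (CB k N).image φ ⊆
      (Finset.Icc (1 : ℤ) N) ×ˢ (Fintype.piFinset fun _ : Fin k => Finset.Icc (-(N : ℤ)) N) := by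
    intro y hy
    obtain ⟨z, hz, rfl⟩ := Finset.mem_image.mp hy
    unfold CB at hz
    rw [Finset.mem_filter, Fintype.mem_piFinset] at hz
    rw [Finset.mem_product, Finset.mem_Icc, Fintype.mem_piFinset]
    exact ⟨hz.2 s, fun i => hz.1 i.succ⟩
  rw [h1]
  refine (Finset.sum_le_sum_of_subset_of_nonneg h2 fun _ _ _ => hF _).trans ?_
  rw [Finset.sum_product]
  have h3 : (Fintype.piFinset fun _ : Fin k => Finset.Icc (-(N : ℤ)) N).card = (2 * N + 1) ^ k := by
    rw [Fintype.card_piFinset, Finset.prod_const, Finset.card_univ, Fintype.card_fin, Int.card_Icc]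
    congr 1
    omega
  have h4 : ∀ n ∈ Finset.Icc (1 : ℤ) N,
      (∑ _y ∈ (Fintype.piFinset fun _ : Fin k => Finset.Icc (-(N : ℤ)) N), F n) =
        ((2 * N + 1) ^ k : ℝ) * F n := by
    intro n _
    rw [Finset.sum_const, h3, nsmul_eq_mul]
    push_cast
    rfl
  have h5 : ∑ n ∈ Finset.Icc (1 : ℤ) N,
      ∑ y ∈ (Fintype.piFinset fun _ : Fin k => Finset.Icc (-(N : ℤ)) N), F (n, y).1 =
      ((2 * N + 1) ^ k : ℝ) * ∑ n ∈ Finset.Icc (1 : ℤ) N, F n := by
    rw [Finset.mul_sum]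
    exact Finset.sum_congr rfl h4
  rw [h5]

theorem pf_CBE : T_CBE := by
  intro k N f g hf hg
  rw [show (∑ z ∈ CB k N, (∏ s, f (vx z s) - ∏ s, g (vx z s))) =
    ∑ z ∈ CB k N, (∏ s ∈ (Finset.univ : Finset (Finset (Fin k))), f (vx z s) -
      ∏ s ∈ (Finset.univ : Finset (Finset (Fin k))), g (vx z s)) from rfl]
  refine (Finset.abs_sum_le_sum_abs _ _).trans ?_
  have h1 : ∀ z ∈ CB k N, |∏ s ∈ (Finset.univ : Finset (Finset (Fin k))), f (vx z s) -
      ∏ s ∈ (Finset.univ : Finset (Finset (Fin k))), g (vx z s)| ≤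
      ∑ s ∈ (Finset.univ : Finset (Finset (Fin k))), |f (vx z s) - g (vx z s)| := fun z _ => by
    classical
    exact prod_sub_prod_le _ (fun s => f (vx z s)) (fun s => g (vx z s)) (fun s => hf _)
      fun s => hg _
  refine (Finset.sum_le_sum h1).trans ?_
  rw [Finset.sum_comm]
  have h2 : ∀ s ∈ (Finset.univ : Finset (Finset (Fin k))),
      ∑ z ∈ CB k N, |f (vx z s) - g (vx z s)| ≤
      (2 * N + 1) ^ k * ∑ n ∈ Finset.Icc (1 : ℤ) N, |f n - g n| := fun s _ =>
    sum_vx_le k N s (fun n => |f n - g n|) fun n => abs_nonneg _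
  refine (Finset.sum_le_sum h2).trans ?_
  rw [Finset.sum_const, Finset.card_univ, Fintype.card_finset, Fintype.card_fin, nsmul_eq_mul]
  push_cast
  rw [mul_assoc]

end Pool.Agent.H34.UF
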